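import Mathlib
import Pool.Agent.Lib.MP_7db704_nt.ModP

namespace Pool.Agent.Results.MP_7db704_nt.SunCongruence

open Finset Pool.Agent.Lib.MP_7db704_nt

/-- The sequence `a(0)=0, a(1)=1, a(n+2)=5a(n+1)-8a(n)`. -/
def a : ℕ → ℤ
  | 0 => 0
  | 1 => 1
  | (n + 2) => 5 * a (n + 1) - 8 * a n

section

variable {h : ℕ} {R : Type*} [CommRing R] [Algebra (ZMod ((2 * h + 1) ^ 2)) R]

lemma isUnit_two_R (hp : (2 * h + 1).Prime) : IsUnit (2 : R) := by
  have := (unit_two hp).map (algebraMap (ZMod ((2 * h + 1) ^ 2)) R)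
  rwa [map_ofNat] at this

lemma key (hp : (2 * h + 1).Prime) (η η' t' : R) (h1 : η + η' = 1) (h2 : η * η' = 2)
    (ht : t' * η' ^ 4 = 1) : Fp h t' ^ 2 = Fp h (η ^ 4) ^ 2 := by
  have hη' : η' = 1 - η := by linear_combination h1
  have hsq : η ^ 2 = η - 2 := by rw [hη'] at h2; linear_combination -h2
  have hw : η ^ 4 + η' ^ 4 = 1 := by
    rw [hη']
    linear_combination (2 * η ^ 2 - 2 * η) * hsq
  have hunit' : IsUnit η' := by
    have : IsUnit (t' * η' ^ 4) := by rw [ht]; exact isUnit_one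
    have h3 := (IsUnit.mul_iff.1 this).2
    exact (isUnit_pow_iff (by norm_num)).1 h3
  set w := η ^ 4 with hwdef
  set B := Bp h w with hB
  set c := Fp h w with hc
  set f := Fp h t' with hf
  set e := η' ^ (2 * h) with he
  have hue : IsUnit e := hunit'.pow _
  -- (A)
  have hA : B = (-1) ^ h * e ^ 2 * f := by
    have hs : w = η' ^ 4 * (t' - 1) := by linear_combination hw - ht
    have h1w : 1 - w = η' ^ 4 := by linear_combination -hw
    have hsum : B = (η' ^ 4) ^ h * Fp h (1 - t') := by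
      rw [hB, Bp_eq_sum]
      unfold Fp
      rw [mul_sum]
      refine sum_congr rfl fun k hk => ?_
      have hk' : k ≤ h := by simpa [Nat.lt_succ_iff] using hk
      rw [h1w, hs, mul_pow, neg_sub]
      have : (η' ^ 4) ^ h = (η' ^ 4) ^ k * (η' ^ 4) ^ (h - k) := by
        rw [← pow_add]; congr 1; omega
      rw [this]; ring
    rw [hsum, Fp_symm, he, ← pow_mul, ← pow_mul, ← hf]
    ring
  -- (B)
  have hBB : 2 * B = e * (B + c) := by
    have e0 : B = Bp h ((η ^ 2) ^ 2) := by rw [hB, hwdef]; congr 1; ring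
    have e1 : (1 + η ^ 2) ^ 2 = η' ^ 2 := by rw [hsq, hη']; ring
    rw [show (2 : R) * B = 2 * Bp h ((η ^ 2) ^ 2) by rw [e0], Bp_sq, mul_sum, e1, hB, hc]
    unfold Bp Fp
    rw [← sum_add_distrib, mul_sum]
    refine sum_congr rfl fun k hk => ?_
    have hk' : k ≤ h := by simpa [Nat.lt_succ_iff] using hk
    have hm := congrArg (algebraMap (ZMod ((2 * h + 1) ^ 2)) R) (choose_sum_modp hp hk')
    simp only [map_mul, map_add, map_pow, map_natCast, map_neg, map_one, map_ofNat] at hm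
    have e2 : (4 : R) ^ k * (η ^ 2) ^ k * (η' ^ 2) ^ (h - k) = e * w ^ k := by
      have e3 : (4 : R) = (η * η') ^ 2 := by rw [h2]; norm_num
      have e4 : (η' ^ 2) ^ h = (η' ^ 2) ^ k * (η' ^ 2) ^ (h - k) := by
        rw [← pow_add]; congr 1; omega
      rw [e3, he, pow_mul, e4, hwdef, ← mul_pow, mul_comm ((η' ^ 2) ^ k), mul_assoc, ← mul_pow,
        mul_comm]
      congr 2
      ring
    have e5 : 2 * ((h.choose k : R) * ((-1) ^ k * (Nat.centralBinom k : R)) * (η ^ 2) ^ k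
        * (η' ^ 2) ^ (h - k)) = (h.choose k : R) * ((h.choose k : R) + (-1) ^ k * ((h + k).choose h : R))
          * ((4 : R) ^ k * (η ^ 2) ^ k * (η' ^ 2) ^ (h - k)) := by
      linear_combination (-(h.choose k : R) * (η ^ 2) ^ k * (η' ^ 2) ^ (h - k)) * hm
    rw [e5, e2, neg_pow]
    ring
  -- (C)
  have hC : ∃ L, B - c = ((2 * h + 1 : ℕ) : R) * L := by
    have hex : ∀ k : ℕ, ∃ l : R, k ≤ h → (h.choose k : R) - (-1) ^ k * ((h + k).choose h : R)
        = ((2 * h + 1 : ℕ) : R) * l := by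
      intro k
      by_cases hk : k ≤ h
      · obtain ⟨l, hl⟩ := choose_sub_modp hp hk
        have hm := congrArg (algebraMap (ZMod ((2 * h + 1) ^ 2)) R) hl
        simp only [map_mul, map_sub, map_pow, map_natCast, map_neg, map_one] at hm
        exact ⟨_, fun _ => hm⟩
      · exact ⟨0, fun h' => absurd h' hk⟩
    choose l hl using hex
    refine ⟨∑ k ∈ range (h + 1), (h.choose k : R) * l k * w ^ k, ?_⟩
    rw [hB, hc, mul_sum]
    unfold Bp Fp
    rw [← sum_sub_distrib]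
    refine sum_congr rfl fun k hk => ?_
    have hk' : k ≤ h := by simpa [Nat.lt_succ_iff] using hk
    rw [neg_pow]
    linear_combination ((h.choose k : R) * w ^ k) * hl k hk'
  obtain ⟨L, hL⟩ := hC
  have hq : ((2 * h + 1 : ℕ) : R) ^ 2 = 0 := by
    have := congrArg (algebraMap (ZMod ((2 * h + 1) ^ 2)) R) (q_sq (h := h))
    simp only [map_pow, map_natCast, map_zero] at this
    exact this
  have hs2 : ((-1 : R) ^ h) ^ 2 = 1 := by rw [← pow_mul, mul_comm, pow_mul]; norm_num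
  set s : R := (-1) ^ h with hs
  -- (1-e)^2 B^2 = 0
  have hz : (4 : R) * ((1 - e) ^ 2 * B ^ 2) = 0 := by
    have e1 : 2 * (1 - e) * B = -e * (((2 * h + 1 : ℕ) : R) * L) := by
      linear_combination hBB - e * hL
    have e2 : (2 * (1 - e) * B) ^ 2 = 0 := by
      rw [e1]; linear_combination (e ^ 2 * L ^ 2) * hq
    linear_combination e2
  have h4u : IsUnit (4 : R) := by
    have := (isUnit_two_R (R := R) hp).pow 2
    have e : (2 : R) ^ 2 = 4 := by norm_num
    rwa [e] at this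
  have hz' : (1 - e) ^ 2 * f ^ 2 = 0 := by
    have e1 : (4 * e ^ 4) * ((1 - e) ^ 2 * f ^ 2) = 0 := by
      rw [hA] at hz
      linear_combination hz - 4 * (1 - e) ^ 2 * e ^ 4 * f ^ 2 * hs2
    have hu : IsUnit (4 * e ^ 4) := h4u.mul (hue.pow 4)
    exact (hu.mul_right_eq_zero).1 e1
  have hcf : e ^ 2 * c ^ 2 = e ^ 2 * ((2 - e) ^ 2 * e ^ 2 * f ^ 2) := by
    have e1 : (2 - e) * B = e * c := by linear_combination hBB
    have e2 : ((2 - e) * B) ^ 2 = (e * c) ^ 2 := by rw [e1]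
    rw [hA] at e2
    linear_combination -e2 + ((2 - e) ^ 2 * e ^ 4 * f ^ 2) * hs2
  have hcf' := (hue.pow 2).mul_left_cancel hcf
  rw [hcf']
  linear_combination (2 - (1 - e) ^ 2) * hz'

lemma clausen_modp (hp : (2 * h + 1).Prime) (η η' t : R) (h1 : η + η' = 1) (h2 : η * η' = 2)
    (ht : t * η ^ 4 = 1) :
    Fp h t ^ 2 = ∑ k ∈ range (2 * h + 1), (Nat.centralBinom k : R) ^ 3 * (-t ^ 3) ^ k := by
  have hη' : η' = 1 - η := by linear_combination h1
  have hsq : η ^ 2 = η - 2 := by rw [hη'] at h2; linear_combination -h2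
  have hw : η ^ 4 + η' ^ 4 = 1 := by
    rw [hη']
    linear_combination (2 * η ^ 2 - 2 * η) * hsq
  have h16 : t * (1 - t) = 16 * (-t ^ 3) := by
    have e1 : (16 : R) = η ^ 4 * η' ^ 4 := by rw [← mul_pow, h2]; norm_num
    have e2 : η' ^ 4 = 1 - η ^ 4 := by linear_combination hw
    rw [e1, e2]
    linear_combination (t ^ 2 - t * (η ^ 4 * t + 1)) * ht
  rw [clausen, h16]
  have hsplit : ∑ k ∈ range (2 * h + 1), (Nat.centralBinom k : R) ^ 3 * (-t ^ 3) ^ k
      = ∑ k ∈ range (h + 1), (Nat.centralBinom k : R) ^ 3 * (-t ^ 3) ^ k := by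
    symm
    apply sum_subset
    · intro k hk; simp at hk ⊢; omega
    · intro k hk hk2
      have hk' : h < k := by simp at hk2; omega
      have hk'' : k < 2 * h + 1 := by simpa using hk
      have hm := congrArg (algebraMap (ZMod ((2 * h + 1) ^ 2)) R) (centralBinom_sq_modp hp hk' hk'')
      simp only [map_pow, map_natCast, map_zero] at hm
      linear_combination ((Nat.centralBinom k : R) * (-t ^ 3) ^ k) * hm
  rw [hsplit]
  refine sum_congr rfl fun k hk => ?_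
  have hk' : k ≤ h := by simpa [Nat.lt_succ_iff] using hk
  have hm := congrArg (algebraMap (ZMod ((2 * h + 1) ^ 2)) R) (choose_two_modp hp hk')
  simp only [map_mul, map_pow, map_natCast, map_neg, map_one, map_ofNat] at hm
  have hs2 : ((-1 : R) ^ k) * (-1) ^ k = 1 := by rw [← mul_pow]; norm_num
  rw [mul_pow]
  linear_combination ((-1) ^ k * (Nat.centralBinom k : R) ^ 2 * (-t ^ 3) ^ k) * hm
    + ((Nat.centralBinom k : R) ^ 3 * (-t ^ 3) ^ k) * hs2

end

lemma a_formula {R : Type*} [CommRing R] (η η' : R) (h1 : η + η' = 1) (h2 : η * η' = 2) (n : ℕ) :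
    (η - η') * (a n : R) = (-η ^ 3) ^ n - (-η' ^ 3) ^ n := by
  have hη' : η' = 1 - η := by linear_combination h1
  have hsq : η ^ 2 = η - 2 := by rw [hη'] at h2; linear_combination -h2
  have hc1 : η ^ 3 = -η - 2 := by linear_combination (η + 1) * hsq
  have hc2 : η' ^ 3 = η - 3 := by rw [hη']; linear_combination (-η + 2) * hsq
  induction n using Nat.strong_induction_on with
  | _ n ih =>
    match n with
    | 0 => simp [a]
    | 1 => simp only [a, pow_one]; rw [hc1, hc2, hη']; push_cast; ring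
    | (m + 2) =>
      have i1 := ih (m + 1) (by omega)
      have i2 := ih m (by omega)
      rw [a]
      push_cast
      rw [hc1, hc2] at i1 i2 ⊢
      rw [pow_succ] at i1
      rw [pow_succ (-(η - 3))] at i1
      rw [pow_add, pow_add]
      linear_combination 5 * i1 - 8 * i2 - ((-(-η - 2)) ^ m - (-(η - 3)) ^ m) * hsq

section

variable {h : ℕ} {R : Type*} [CommRing R] [Algebra (ZMod ((2 * h + 1) ^ 2)) R]

lemma inv_map (hp : (2 * h + 1).Prime) (x : R) (hx : 16 * x = 1) (k : ℕ) :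
    algebraMap (ZMod ((2 * h + 1) ^ 2)) R (((-4096 : ZMod ((2 * h + 1) ^ 2)) ^ k)⁻¹)
      = (-x ^ 3) ^ k := by
  have hu : IsUnit ((-4096 : ZMod ((2 * h + 1) ^ 2)) ^ k) := by
    have h2 := unit_two hp
    have e : (-4096 : ZMod ((2 * h + 1) ^ 2)) = -(2 ^ 12) := by norm_num
    rw [e]
    exact ((h2.pow 12).neg).pow k
  have h1 : ((-4096 : ZMod ((2 * h + 1) ^ 2)) ^ k) * ((-4096 : ZMod ((2 * h + 1) ^ 2)) ^ k)⁻¹ = 1 :=
    ZMod.mul_inv_of_unit _ hu
  have h2 := congrArg (algebraMap (ZMod ((2 * h + 1) ^ 2)) R) h1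
  rw [map_mul, map_one, map_pow, map_neg, map_ofNat] at h2
  have h3 : (-4096 : R) ^ k * (-x ^ 3) ^ k = 1 := by
    rw [← mul_pow]
    have : (-4096 : R) * -x ^ 3 = (16 * x) ^ 3 := by ring
    rw [this, hx, one_pow, one_pow]
  calc algebraMap (ZMod ((2 * h + 1) ^ 2)) R (((-4096 : ZMod ((2 * h + 1) ^ 2)) ^ k)⁻¹)
      = ((-4096 : R) ^ k * (-x ^ 3) ^ k) *
        algebraMap (ZMod ((2 * h + 1) ^ 2)) R (((-4096 : ZMod ((2 * h + 1) ^ 2)) ^ k)⁻¹) := by
        rw [h3, one_mul]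
    _ = ((-4096 : R) ^ k *
        algebraMap (ZMod ((2 * h + 1) ^ 2)) R (((-4096 : ZMod ((2 * h + 1) ^ 2)) ^ k)⁻¹))
        * (-x ^ 3) ^ k := by ring
    _ = (-x ^ 3) ^ k := by rw [h2, one_mul]

lemma main_abs (hp : (2 * h + 1).Prime) (η i : R) (hηsq : η ^ 2 = η - 2) (hi : 2 * i = 1) :
    7 * algebraMap (ZMod ((2 * h + 1) ^ 2)) R
      (∑ k ∈ range (2 * h + 1), (a (4 * k) : ZMod ((2 * h + 1) ^ 2))
      * ((2 * k).choose k : ZMod ((2 * h + 1) ^ 2)) ^ 3
      * ((-4096 : ZMod ((2 * h + 1) ^ 2)) ^ k)⁻¹) = 0 := by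
  obtain ⟨η', hη'⟩ : ∃ η', η' = 1 - η := ⟨_, rfl⟩
  have h1 : η + η' = 1 := by rw [hη']; ring
  have h2 : η * η' = 2 := by rw [hη']; linear_combination -hηsq
  obtain ⟨t, htdef⟩ : ∃ t, t = (η' * i) ^ 4 := ⟨_, rfl⟩
  obtain ⟨t', htdef'⟩ : ∃ t', t' = (η * i) ^ 4 := ⟨_, rfl⟩
  have ht : t * η ^ 4 = 1 := by
    have : η' * i * η = 1 := by linear_combination i * h2 + hi
    rw [htdef, ← mul_pow, this, one_pow]
  have ht' : t' * η' ^ 4 = 1 := by
    have : η * i * η' = 1 := by linear_combination i * h2 + hi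
    rw [htdef', ← mul_pow, this, one_pow]
  have k1 := key hp η η' t' h1 h2 ht'
  have h1' : η' + η = 1 := by linear_combination h1
  have h2' : η' * η = 2 := by linear_combination h2
  have k2 := key hp η' η t h1' h2' ht
  have hw : η' ^ 4 = 1 - η ^ 4 := by
    rw [hη']
    linear_combination (2 * η ^ 2 - 2 * η) * hηsq
  have k3 : Fp h t' ^ 2 = Fp h t ^ 2 := by
    have hs2 : ((-1 : R) ^ h) ^ 2 = 1 := by rw [← pow_mul, mul_comm, pow_mul]; norm_num
    rw [k1, k2, hw, Fp_symm, mul_pow, hs2, one_mul]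
  have c1 := clausen_modp hp η η' t h1 h2 ht
  have c2 := clausen_modp hp η' η t' h1' h2' ht'
  have hx : 16 * (t * t') = 1 := by
    have e : (16 : R) = η ^ 4 * η' ^ 4 := by rw [← mul_pow, h2]; norm_num
    rw [e]
    calc η ^ 4 * η' ^ 4 * (t * t') = (t * η ^ 4) * (t' * η' ^ 4) := by ring
      _ = 1 := by rw [ht, ht', one_mul]
  have hterm : ∀ k, (η - η') * algebraMap (ZMod ((2 * h + 1) ^ 2)) R
      ((a (4 * k) : ZMod ((2 * h + 1) ^ 2)) * ((2 * k).choose k : ZMod ((2 * h + 1) ^ 2)) ^ 3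
      * ((-4096 : ZMod ((2 * h + 1) ^ 2)) ^ k)⁻¹) = (Nat.centralBinom k : R) ^ 3 * (-t' ^ 3) ^ k
        - (Nat.centralBinom k : R) ^ 3 * (-t ^ 3) ^ k := by
    intro k
    have haf := a_formula η η' h1 h2 (4 * k)
    rw [map_mul, map_mul, map_pow, map_natCast, map_intCast, inv_map hp _ hx,
      ← Nat.centralBinom_eq_two_mul_choose]
    have e1 : (η - η') * ((a (4 * k) : R) * (Nat.centralBinom k : R) ^ 3 * (-(t * t') ^ 3) ^ k)
      = (Nat.centralBinom k : R) ^ 3 * (((-η ^ 3) ^ (4 * k) - (-η' ^ 3) ^ (4 * k)) * (-(t * t') ^ 3) ^ k) := by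
      rw [← haf]; ring
    rw [e1, ← mul_sub]
    have e2 : (-η ^ 3) ^ 4 * -(t * t') ^ 3 = -t' ^ 3 := by
      have : (-η ^ 3) ^ 4 * -(t * t') ^ 3 = -t' ^ 3 * (t * η ^ 4) ^ 3 := by ring
      rw [this, ht]; ring
    have e3 : (-η' ^ 3) ^ 4 * -(t * t') ^ 3 = -t ^ 3 := by
      have : (-η' ^ 3) ^ 4 * -(t * t') ^ 3 = -t ^ 3 * (t' * η' ^ 4) ^ 3 := by ring
      rw [this, ht']; ring
    rw [sub_mul, pow_mul, pow_mul, ← mul_pow, ← mul_pow, e2, e3]
  have hsum : (η - η') * algebraMap (ZMod ((2 * h + 1) ^ 2)) R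
      (∑ k ∈ range (2 * h + 1), (a (4 * k) : ZMod ((2 * h + 1) ^ 2))
      * ((2 * k).choose k : ZMod ((2 * h + 1) ^ 2)) ^ 3
      * ((-4096 : ZMod ((2 * h + 1) ^ 2)) ^ k)⁻¹) = 0 := by
    rw [map_sum, mul_sum, sum_congr rfl fun k _ => hterm k, sum_sub_distrib, ← c1, ← c2, k3,
      sub_self]
  have e1 : (7 : R) = -((η - η') * (η - η')) := by
    rw [hη']
    linear_combination 4 * hηsq
  rw [e1, neg_mul, mul_assoc, hsum, mul_zero, neg_zero]

end

theorem result (p : ℕ) (hp : p.Prime) (hodd : p ≠ 2) :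
    ∑ k ∈ range p, (a (4 * k) : ZMod (p ^ 2)) * ((2 * k).choose k : ZMod (p ^ 2)) ^ 3
      * ((-4096 : ZMod (p ^ 2)) ^ k)⁻¹ = 0 := by
  obtain ⟨h, rfl⟩ := hp.odd_of_ne_two hodd
  by_cases h7 : h = 3
  · subst h7
    decide +kernel
  -- the ring `R = (ZMod q)[ω]`, `ω ^ 2 = ω - 2`
  have hω : (QuadraticAlgebra.omega : QuadraticAlgebra (ZMod ((2 * h + 1) ^ 2)) (-2) 1) ^ 2
      = QuadraticAlgebra.omega - 2 := by
    refine (pow_two _).trans ?_
    rw [QuadraticAlgebra.omega_mul_omega_eq_algebraMap, map_one, map_neg, map_ofNat]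
    ring
  obtain ⟨i, hi⟩ := (isUnit_two_R (h := h)
    (R := QuadraticAlgebra (ZMod ((2 * h + 1) ^ 2)) (-2) 1) hp).exists_right_inv
  have h7S := main_abs hp _ i hω hi
  rw [← map_ofNat (algebraMap (ZMod ((2 * h + 1) ^ 2)) (QuadraticAlgebra (ZMod ((2 * h + 1) ^ 2)) (-2) 1)) 7,
    ← map_mul, ← map_zero (algebraMap (ZMod ((2 * h + 1) ^ 2)) (QuadraticAlgebra (ZMod ((2 * h + 1) ^ 2)) (-2) 1))] at h7S
  have h7S' := QuadraticAlgebra.algebraMap_injective h7S
  have h7u : IsUnit (7 : ZMod ((2 * h + 1) ^ 2)) := by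
    have : IsUnit ((7 : ℕ) : ZMod ((2 * h + 1) ^ 2)) := by
      rw [ZMod.isUnit_iff_coprime]
      apply Nat.Coprime.pow_right
      rw [Nat.coprime_primes (by norm_num) hp]
      omega
    exact_mod_cast this
  exact (h7u.mul_right_eq_zero).1 h7S'

end Pool.Agent.Results.MP_7db704_nt.SunCongruence
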